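import Pool.Agent.U562.WV.Stm
import Pool.Agent.H153R4.Pl

/-!
# Project WV, job POL: polar coordinates and Plancherel in `ℝ³`
-/

set_option autoImplicit false

open MeasureTheory MeasureTheory.Measure Set Metric
open scoped ENNReal NNReal FourierTransform RealInnerProductSpace

namespace Pool.Agent.U2.WV.POL

open Pool.Agent.U562.WV

lemma sphere_hom_apply (x : ({0}ᶜ : Set (E 3))) :
    ((homeomorphUnitSphereProd (E 3) x).1 : E 3) = ‖(x : E 3)‖⁻¹ • (x : E 3) := by
  simp [homeomorphUnitSphereProd]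

lemma sphere_hom_apply2 (x : ({0}ᶜ : Set (E 3))) :
    ((homeomorphUnitSphereProd (E 3) x).2 : ℝ) = ‖(x : E 3)‖ := by
  simp [homeomorphUnitSphereProd]

/-- the radial integral -/
lemma radial (F : ℝ → ℝ≥0∞) (hF : Measurable F) :
    ∫⁻ r : Ioi (0 : ℝ), F r ∂(volumeIoiPow 2) =
      ∫⁻ r in Ioi (0 : ℝ), ENNReal.ofReal (r ^ 2) * F r := by
  unfold volumeIoiPow
  rw [lintegral_withDensity_eq_lintegral_mul]
  · rw [← lintegral_subtype_comap measurableSet_Ioi]
    rfl
  · fun_prop
  · exact hF.comp measurable_subtype_coe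

/-- polar coordinates -/
lemma polar (G : E 3 → ℝ≥0∞) (hG : Measurable G) :
    ∫⁻ w, (∫⁻ r in Ioi (0 : ℝ), ENNReal.ofReal (r ^ 2) * G (r • w)) ∂sg = ∫⁻ x, G x := by
  have hjm : Measurable fun p : E 3 × ℝ => G (p.2 • p.1) :=
    hG.comp (measurable_snd.smul measurable_fst)
  have hm : Measurable fun w : E 3 => ∫⁻ r in Ioi (0 : ℝ), ENNReal.ofReal (r ^ 2) * G (r • w) := by
    apply Measurable.lintegral_prod_right'
      (f := fun p : E 3 × ℝ => ENNReal.ofReal (p.2 ^ 2) * G (p.2 • p.1))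
    exact (by fun_prop : Measurable fun p : E 3 × ℝ => ENNReal.ofReal (p.2 ^ 2)).mul hjm
  have h1 : ∫⁻ x : E 3, G x = ∫⁻ x in ({0}ᶜ : Set (E 3)), G x := by
    rw [restrict_compl_singleton]
  have h2 : ∫⁻ x in ({0}ᶜ : Set (E 3)), G x =
      ∫⁻ x : ({0}ᶜ : Set (E 3)), G (x : E 3) ∂((volume : Measure (E 3)).comap Subtype.val) := by
    rw [← lintegral_subtype_comap (measurableSet_singleton _).compl]
  have h3 := (measurePreserving_homeomorphUnitSphereProd (volume : Measure (E 3)))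
  have hd : Module.finrank ℝ (E 3) - 1 = 2 := by simp
  rw [hd] at h3
  have h4 : ∫⁻ x : ({0}ᶜ : Set (E 3)), G (x : E 3) ∂((volume : Measure (E 3)).comap Subtype.val) =
      ∫⁻ p, G ((p.2 : ℝ) • (p.1 : E 3)) ∂((volume : Measure (E 3)).toSphere.prod (volumeIoiPow 2)) := by
    rw [← h3.lintegral_comp (f := fun p : (sphere (0 : E 3) 1) × Ioi (0 : ℝ) =>
      G ((p.2 : ℝ) • (p.1 : E 3)))]
    · refine lintegral_congr fun x => ?_
      have hx : ‖(x : E 3)‖ ≠ 0 := norm_ne_zero_iff.2 x.2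
      rw [sphere_hom_apply, sphere_hom_apply2, smul_smul, mul_inv_cancel₀ hx, one_smul]
    · exact hG.comp ((measurable_subtype_coe.comp measurable_snd).smul
        (measurable_subtype_coe.comp measurable_fst))
  rw [h1, h2, h4, lintegral_prod]
  · unfold sg
    rw [lintegral_map hm measurable_subtype_coe]
    refine lintegral_congr fun w => ?_
    rw [← radial (fun r => G (r • (w : E 3)))]
    exact hG.comp (measurable_id.smul_const _)
  · exact (hG.comp ((measurable_subtype_coe.comp measurable_snd).smul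
        (measurable_subtype_coe.comp measurable_fst))).aemeasurable

/-- splitting the line -/
lemma split (f : ℝ → ℝ≥0∞) :
    ∫⁻ σ : ℝ, f σ = (∫⁻ σ in Ioi (0 : ℝ), f σ) + ∫⁻ σ in Ioi (0 : ℝ), f (-σ) := by
  rw [← lintegral_add_compl f (measurableSet_Ioi (a := (0:ℝ)))]
  congr 1
  rw [← lintegral_indicator measurableSet_Ioi.compl, ← lintegral_neg_eq_self,
    setLIntegral_congr (Ioi_ae_eq_Ici (a := (0:ℝ))), ← lintegral_indicator measurableSet_Ici]
  refine lintegral_congr fun σ => ?_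
  simp only [indicator, mem_compl_iff, mem_Ioi, mem_Ici, not_lt, Left.neg_nonpos_iff]

theorem t_POL : S_POL := by
  intro k hk hc
  have hint : Integrable k := hk.integrable_of_hasCompactSupport hc
  have h2 : MemLp k 2 := hk.memLp_of_hasCompactSupport hc
  have hFc : Continuous (𝓕 k) := by
    have := VectorFourier.fourierIntegral_continuous (L := innerₗ (E 3)) Real.continuous_fourierChar
      continuous_inner hint
    exact this
  have hpl := Pool.Agent.H153R4.plancherel k hint h2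
  rw [← hpl]
  set G : E 3 → ℝ≥0∞ := fun x => ‖𝓕 k x‖ₑ ^ 2 with hG
  have hGm : Measurable G := (hFc.measurable.enorm).pow_const 2
  have hGm' : Measurable fun x => G (-x) := hGm.comp measurable_neg
  have e1 : ∀ w : E 3, (∫⁻ σ : ℝ, ENNReal.ofReal (σ ^ 2) * ‖𝓕 k (σ • w)‖ₑ ^ 2) =
      (∫⁻ σ in Ioi (0 : ℝ), ENNReal.ofReal (σ ^ 2) * G (σ • w)) +
      ∫⁻ σ in Ioi (0 : ℝ), ENNReal.ofReal (σ ^ 2) * G (-(σ • w)) := by
    intro w
    rw [split]
    congr 1
    refine lintegral_congr fun σ => ?_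
    rw [neg_sq, neg_smul]
  have hjm : Measurable fun p : E 3 × ℝ => G (p.2 • p.1) :=
    hGm.comp (measurable_snd.smul measurable_fst)
  have hm : Measurable fun w : E 3 => ∫⁻ r in Ioi (0 : ℝ), ENNReal.ofReal (r ^ 2) * G (r • w) := by
    apply Measurable.lintegral_prod_right'
      (f := fun p : E 3 × ℝ => ENNReal.ofReal (p.2 ^ 2) * G (p.2 • p.1))
    exact (by fun_prop : Measurable fun p : E 3 × ℝ => ENNReal.ofReal (p.2 ^ 2)).mul hjm
  simp_rw [e1]
  rw [lintegral_add_left hm, polar G hGm, polar (fun x => G (-x)) hGm',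
    lintegral_neg_eq_self (fun x => G x), two_mul]

end Pool.Agent.U2.WV.POL
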